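import Pool.Agent.Helper66_D2.Stmts

/-!
# Squad PP, part D2, module CCD
-/

noncomputable section

namespace Pool.Agent.PP.CD2.H90

theorem ccd (hced : CedStmt) (hchd : ChdStmt) : CcdStmt := by
  intro ℓ _ F _ hF G _ _ n N P y₁ b w hD hB e he heb
  rw [hchd ℓ F hF G n N P y₁ b w hD hB e he heb, hced ℓ F hF G n N P y₁ b w hD e he heb, sub_self]

end Pool.Agent.PP.CD2.H90
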