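import Pool.Agent.Helper66_D2.Stmts
import Pool.Agent.Helper94_PP.Bridge

/-!
# Squad PP, part D2, module LFZ: the centre and a commutative corner
-/

open scoped BigOperators

noncomputable section

namespace Pool.Agent.PP.CD2.H90

open Pool.Agent.PP

section ring

variable {R : Type*} [Ring R] {e i : R} {m : ℕ} {x y : Fin m → R}

theorem lfz_ring (hec : ∀ a, a * e = e * a) (hii : i * i = i) (hei : e * i = i)
    (hful : ∑ k, x k * (i * y k) = e)
    (hcomm : ∀ a c, i * a = a → a * i = a → i * c = c → c * i = c → a * c = c * a) {r : R}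
    (hr1 : i * r = r) (hr2 : r * i = r) :
    (∀ a, a * (∑ k, x k * (r * y k)) = (∑ k, x k * (r * y k)) * a) ∧
      e * (∑ k, x k * (r * y k)) = ∑ k, x k * (r * y k) ∧
      (∑ k, x k * (r * y k)) * i = r := by
  have hc : ∀ t : R, i * (t * i) * r = r * (i * (t * i)) := by
    intro t
    apply hcomm _ _ _ _ hr1 hr2
    · rw [← mul_assoc, hii]
    · rw [mul_assoc, mul_assoc, hii]
  have her : e * r = r := by
    rw [← hr1, ← mul_assoc, hei]
  have hec' : e * (∑ k, x k * (r * y k)) = ∑ k, x k * (r * y k) := by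
    rw [Finset.mul_sum]
    refine Finset.sum_congr rfl fun k _ => ?_
    rw [← mul_assoc, ← hec (x k), mul_assoc, ← mul_assoc e, her]
  have hcen : ∀ a, a * (∑ k, x k * (r * y k)) = (∑ k, x k * (r * y k)) * a := by
    intro a
    have h1 : a * (∑ k, x k * (r * y k)) = ∑ l, ∑ k, x l * (r * (y l * (a * (x k * (i * y k))))) := by
      have h0 : a * (∑ k, x k * (r * y k)) = e * (a * (∑ k, x k * (r * y k))) := by
        rw [← mul_assoc e a, ← hec a, mul_assoc a e, hec']
      rw [h0, ← hful, Finset.sum_mul]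
      refine Finset.sum_congr rfl fun l _ => ?_
      rw [Finset.mul_sum, Finset.mul_sum]
      refine Finset.sum_congr rfl fun k _ => ?_
      have h2 := hc (y l * (a * x k))
      calc x l * (i * y l) * (a * (x k * (r * y k)))
          = x l * (i * (y l * (a * (x k * r))) * y k) := by simp only [mul_assoc]
        _ = x l * (i * (y l * (a * (x k * (i * r)))) * y k) := by rw [hr1]
        _ = x l * ((i * (y l * (a * x k) * i) * r) * y k) := by simp only [mul_assoc]
        _ = x l * ((r * (i * (y l * (a * x k) * i))) * y k) := by rw [h2]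
        _ = x l * ((r * i) * (y l * (a * (x k * (i * y k))))) := by simp only [mul_assoc]
        _ = _ := by rw [hr2]
    rw [h1]
    have h3 : (∑ k, x k * (r * y k)) * a = (∑ k, x k * (r * y k)) * (a * e) := by
      rw [hec a, ← mul_assoc, hec, hec']
    rw [h3, ← hful, Finset.sum_mul]
    refine Finset.sum_congr rfl fun l _ => ?_
    rw [Finset.mul_sum, Finset.mul_sum]
    refine Finset.sum_congr rfl fun k _ => ?_
    simp only [mul_assoc]
  refine ⟨hcen, hec', ?_⟩
  have h4 : (∑ k, x k * (r * y k)) * i = i * ((∑ k, x k * (r * y k)) * i) := by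
    rw [← mul_assoc, hcen i, mul_assoc, hii]
  rw [h4, Finset.sum_mul, Finset.mul_sum]
  have h5 : ∀ k, i * (x k * (r * y k) * i) = r * (i * ((x k * (i * y k)) * i)) := by
    intro k
    calc i * (x k * (r * y k) * i) = (i * (x k * r)) * (y k * i) := by simp only [mul_assoc]
      _ = (i * (x k * (i * r))) * (y k * i) := by rw [hr1]
      _ = (i * (x k * i) * r) * (y k * i) := by simp only [mul_assoc]
      _ = (r * (i * (x k * i))) * (y k * i) := by rw [hc]
      _ = _ := by simp only [mul_assoc]
  rw [Finset.sum_congr rfl fun k _ => h5 k, ← Finset.mul_sum, ← Finset.mul_sum, ← Finset.sum_mul,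
    hful, hei, hii, hr2]

end ring

theorem lfz : LfzStmt := by
  intro F _ G _ _ e i d he hi
  obtain ⟨m, x, y, hful⟩ := hi.full
  have hful' : ∑ k, ma (x k) * (ma i * ma (y k)) = ma e := by
    rw [← hful, ma_sum]
    exact Finset.sum_congr rfl fun k _ => by rw [ma_mul, ma_mul]
  have hec : ∀ a : MonoidAlgebra F G, a * ma e = ma e * a :=
    Subalgebra.mem_center_iff.1 ((isCl_iff e).1 he.1)
  have hii : ma i * ma i = ma i := by rw [← ma_mul, hi.ii]
  have hei : ma e * ma i = ma i := by rw [← ma_mul, hi.ei]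
  constructor
  · intro r hr
    have hr1 : ma i * ma r = ma r := by rw [← ma_mul, hr.1]
    have hr2 : ma r * ma i = ma r := by rw [← ma_mul, hr.2]
    have hcomm : ∀ a c : MonoidAlgebra F G, ma i * a = a → a * ma i = a → ma i * c = c →
        c * ma i = c → a * c = c * a := by
      intro a c h1 h2 h3 h4
      obtain ⟨a, rfl⟩ := ma_surjective a
      obtain ⟨c, rfl⟩ := ma_surjective c
      rw [← ma_mul, ← ma_mul]
      congr 1
      apply hi.comm
      · exact ⟨ma_injective (by rw [ma_mul, h1]), ma_injective (by rw [ma_mul, h2])⟩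
      · exact ⟨ma_injective (by rw [ma_mul, h3]), ma_injective (by rw [ma_mul, h4])⟩
    obtain ⟨k1, k2, k3⟩ := lfz_ring hec hii hei hful' hcomm hr1 hr2
    have hs : ma (∑ k, mulF (x k) (mulF r (y k))) = ∑ k, ma (x k) * (ma r * ma (y k)) := by
      rw [ma_sum]
      exact Finset.sum_congr rfl fun k _ => by rw [ma_mul, ma_mul]
    refine ⟨∑ k, mulF (x k) (mulF r (y k)), ?_, ?_, ?_⟩
    · rw [isCl_iff, Subalgebra.mem_center_iff, hs]
      exact k1
    · apply ma_injective
      rw [ma_mul, hs, k2]
    · apply ma_injective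
      rw [ma_mul, hs, k3]
  · intro c hc h1 h2
    have hcc : ∀ a : MonoidAlgebra F G, a * ma c = ma c * a :=
      Subalgebra.mem_center_iff.1 ((isCl_iff c).1 hc)
    have hci : ma c * ma i = 0 := by rw [← ma_mul, h2, ma_zero]
    apply ma_injective
    rw [ma_zero, ← h1, ma_mul, ← hful', Finset.sum_mul]
    refine Finset.sum_eq_zero fun k _ => ?_
    rw [mul_assoc, mul_assoc, hcc (ma (y k)), ← mul_assoc (ma i), hcc (ma i), hci, zero_mul,
      mul_zero]

end Pool.Agent.PP.CD2.H90
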